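import Mathlib

/-!
# Tate cohomology of admissible representations is admissible

Let `p` be a prime, `F` a nonarchimedean local field of residue characteristic different from `p` (for instance a local
function field of characteristic different from `p`), and let `G` be a closed subgroup of `GL_n(F)`, for instance the
group of `F`-points of a reductive group. Let `σ` be a continuous automorphism of `G` with `σ ^ p = 1`, let `k` be a field
of characteristic `p`, and let `Π` be an admissible representation of `G` on a `k`-vector space `V`, extended to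
`G ⋊ ⟨σ⟩` by an operator `S` (`S Π(g) = Π(σ g) S`, `S ^ p = 1`). We show that

  `T⁰(Π) = ker (1 - S) / im N`,  `T¹(Π) = ker N / im (1 - S)`,  `N = 1 + S + ... + S ^ (p - 1)`,

are admissible representations of the group `G^σ` of fixed points. For `G` reductive, this is the statement conjectured by
Treumann and Venkatesh for all smooth irreducible `σ`-fixed `Π`; such `Π` are admissible by the classical theorem of
Jacquet, Bernstein and Vignéras.

The proof. Let `U` be a compact open `σ`-stable pro-`ℓ`-subgroup, `ℓ ≠ p`. We claim that the map `T^i(V^U) → T^i(V)^{U^σ}`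
is surjective. Let `t` be a class in `T^i(V)` fixed by `U^σ`, represented by `v`, and let `M ⊆ U` be the open subgroup
fixing `v, S v, S² v, ...`. Put `w = ∑ Π(x) v`, `x ∈ U / M`; this is a vector of `V^U`, and it defines a class in
`T^i(V^U)`. The group `⟨σ⟩` permutes the cosets. The sum over a free orbit is a coboundary. If a coset `x M` is fixed, it
contains a fixed point of `σ`, since the number of elements of `x M / M'` is prime to `p` for all `σ`-stable open `M' ⊆ M`,
and `x M` is compact; thus `Π(x) v = Π(h) v` with `h ∈ U^σ`, and this is `v` modulo coboundaries. So `w = c v` modulo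
coboundaries, where `c` is the number of the fixed cosets, which is congruent to `[U : M]` modulo `p` and hence invertible
in `k`. Therefore `t` is the class of `c⁻¹ w`.
-/

set_option autoImplicit false

namespace Pool.Agent.Results.MP_60b77b_nt.TateAdmissible

open Finset ValuativeRel

/-! ### Definitions -/

section defs

variable {k G V : Type*} [Field k] [Group G] [AddCommGroup V] [Module k V]

/-- The space `V^K` of the vectors fixed by a subgroup `K`. -/
def fixedVectors (ρ : Representation k G V) (K : Subgroup G) : Submodule k V where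
  carrier := {v | ∀ g ∈ K, ρ g v = v}
  add_mem' := fun {a b} ha hb g hg => by rw [map_add, ha g hg, hb g hg]
  zero_mem' := fun g _ => map_zero _
  smul_mem' := fun c v hv g hg => by rw [map_smul, hv g hg]

/-- A representation of a topological group is admissible if it is smooth (each vector has an open
stabiliser) and if `V^K` is finite-dimensional for every compact open subgroup `K`. -/
structure IsAdmissible [TopologicalSpace G] (ρ : Representation k G V) : Prop where
  smooth : ∀ v : V, IsOpen {g : G | ρ g v = v}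
  finite : ∀ K : Subgroup G, IsOpen (K : Set G) → IsCompact (K : Set G) →
    FiniteDimensional k (fixedVectors ρ K)

/-- The subgroup `G^σ` of the fixed points of an automorphism. -/
def fixedSubgroup (σ : G ≃* G) : Subgroup G where
  carrier := {g | σ g = g}
  mul_mem' := fun {a b} (ha : σ a = a) (hb : σ b = b) => by
    show σ (a * b) = a * b
    rw [map_mul, ha, hb]
  one_mem' := map_one σ
  inv_mem' := fun {a} (ha : σ a = a) => by
    show σ a⁻¹ = a⁻¹
    rw [map_inv, ha]

/-- `S` extends the representation `ρ` of `G` to a representation of `G ⋊ ⟨σ⟩`, where `σ` is an automorphism with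
`σ ^ p = 1`: one has `S ρ(g) = ρ(σ g) S` and `S ^ p = 1`. -/
structure IsExtension (σ : G ≃* G) (p : ℕ) (ρ : Representation k G V) (S : Module.End k V) : Prop where
  comm : ∀ g, S * ρ g = ρ (σ g) * S
  pow : S ^ p = 1

/-- The norm `N = 1 + S + ... + S ^ (p - 1)`. -/
def norm (p : ℕ) (S : Module.End k V) : Module.End k V := ∑ i ∈ range p, S ^ i

/-- `ker A / (im B ∩ ker A)`. -/
abbrev Subquotient (A B : Module.End k V) : Type _ :=
  LinearMap.ker A ⧸ (LinearMap.range B).comap (LinearMap.ker A).subtype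

/-- An endomorphism commuting with `A` restricts to `ker A`. -/
def onKer (A f : Module.End k V) (hA : A * f = f * A) : Module.End k (LinearMap.ker A) :=
  f.restrict fun v hv => by
    rw [LinearMap.mem_ker] at hv ⊢
    have := LinearMap.congr_fun hA v
    simp only [Module.End.mul_apply] at this
    rw [this, hv, map_zero]

theorem onKer_le (A B f : Module.End k V) (hA : A * f = f * A) (hB : B * f = f * B) :
    (LinearMap.range B).comap (LinearMap.ker A).subtype ≤
      ((LinearMap.range B).comap (LinearMap.ker A).subtype).comap (onKer A f hA) := by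
  rintro ⟨v, hv⟩ ⟨w, hw⟩
  refine ⟨f w, ?_⟩
  have := LinearMap.congr_fun hB w
  simp only [Module.End.mul_apply] at this
  rw [this, hw]
  rfl

/-- The representation of a subgroup `H` on `ker A / (im B ∩ ker A)`, for `A`, `B` commuting with the action
of `H`. -/
def subquotientRep (ρ : Representation k G V) (H : Subgroup G) (A B : Module.End k V)
    (hA : ∀ h ∈ H, A * ρ h = ρ h * A) (hB : ∀ h ∈ H, B * ρ h = ρ h * B) :
    Representation k H (Subquotient A B) where
  toFun h := Submodule.mapQ _ _ (onKer A (ρ h) (hA h h.2)) (onKer_le A B (ρ h) (hA h h.2) (hB h h.2))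
  map_one' := by
    ext v
    simp [onKer, Submodule.mapQ_apply]
    rfl
  map_mul' g h := by
    ext v
    simp only [LinearMap.comp_apply, Submodule.mkQ_apply, Submodule.mapQ_apply, Module.End.mul_apply]
    congr 1
    ext
    simp [onKer]

theorem IsExtension.comm_fixed {σ : G ≃* G} {p : ℕ} {ρ : Representation k G V} {S : Module.End k V}
    (hS : IsExtension σ p ρ S) (h : G) (hh : h ∈ fixedSubgroup σ) : S * ρ h = ρ h * S := by
  rw [hS.comm, show σ h = h from hh]

theorem IsExtension.comm_one_sub {σ : G ≃* G} {p : ℕ} {ρ : Representation k G V} {S : Module.End k V}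
    (hS : IsExtension σ p ρ S) (h : G) (hh : h ∈ fixedSubgroup σ) : (1 - S) * ρ h = ρ h * (1 - S) := by
  rw [sub_mul, mul_sub, hS.comm_fixed h hh, one_mul, mul_one]

theorem IsExtension.comm_norm {σ : G ≃* G} {p : ℕ} {ρ : Representation k G V} {S : Module.End k V}
    (hS : IsExtension σ p ρ S) (h : G) (hh : h ∈ fixedSubgroup σ) : norm p S * ρ h = ρ h * norm p S := by
  have h1 : Commute S (ρ h) := hS.comm_fixed h hh
  unfold norm
  exact (Commute.sum_left _ _ _ fun i _ => h1.pow_left i).eq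

/-- `T⁰ = ker (1 - S) / im N` as a representation of `G^σ`. -/
def tate0 {σ : G ≃* G} {p : ℕ} {ρ : Representation k G V} {S : Module.End k V}
    (hS : IsExtension σ p ρ S) : Representation k (fixedSubgroup σ) (Subquotient (1 - S) (norm p S)) :=
  subquotientRep ρ (fixedSubgroup σ) (1 - S) (norm p S) hS.comm_one_sub hS.comm_norm

/-- `T¹ = ker N / im (1 - S)` as a representation of `G^σ`. -/
def tate1 {σ : G ≃* G} {p : ℕ} {ρ : Representation k G V} {S : Module.End k V}
    (hS : IsExtension σ p ρ S) : Representation k (fixedSubgroup σ) (Subquotient (norm p S) (1 - S)) :=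
  subquotientRep ρ (fixedSubgroup σ) (norm p S) (1 - S) hS.comm_norm hS.comm_one_sub

end defs

/-! ### Sums over orbits -/

section orbits

theorem sum_mem_of_orbits {X V : Type*} [DecidableEq X] [AddCommGroup V] (W : AddSubgroup V) {p : ℕ}
    (hp : p.Prime) (τ : X → X) (hτ : ∀ x, τ^[p] x = x) (f : X → V)
    (hf : ∀ x, τ x ≠ x → ∑ j ∈ range p, f (τ^[j] x) ∈ W) (n : ℕ) :
    ∀ s : Finset X, s.card = n → (∀ x ∈ s, τ x ∈ s) → (∀ x ∈ s, τ x ≠ x) → ∑ x ∈ s, f x ∈ W := by
  induction n using Nat.strong_induction_on with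
  | _ n ih =>
    intro s hn hs hs'
    rcases s.eq_empty_or_nonempty with rfl | ⟨x, hx⟩
    · simp
    have hmin : Function.minimalPeriod τ x = p := by
      have h1 : Function.IsPeriodicPt τ p x := hτ x
      have h2 := h1.minimalPeriod_dvd
      rcases (Nat.dvd_prime hp).1 h2 with h3 | h3
      · exact absurd (Function.minimalPeriod_eq_one_iff_isFixedPt.1 h3) (hs' x hx)
      · exact h3
    have hinj : Set.InjOn (fun j => τ^[j] x) (range p : Set ℕ) := by
      have h4 := Function.iterate_injOn_Iio_minimalPeriod (f := τ) (x := x)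
      rw [hmin] at h4
      simpa using h4
    have hmem : ∀ j, τ^[j] x ∈ s := by
      intro j
      induction j with
      | zero => simpa using hx
      | succ j ihj =>
        rw [Function.iterate_succ_apply']
        exact hs _ ihj
    let O : Finset X := (range p).image fun j => τ^[j] x
    have hO : O ⊆ s := by
      intro y hy
      obtain ⟨j, -, rfl⟩ := Finset.mem_image.1 hy
      exact hmem j
    have hOsum : ∑ y ∈ O, f y = ∑ j ∈ range p, f (τ^[j] x) := Finset.sum_image hinj
    have hxO : x ∈ O := Finset.mem_image.2 ⟨0, by simpa using hp.pos, rfl⟩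
    have hcard : (s \ O).card < n := by
      rw [← hn]
      apply Finset.card_lt_card
      refine ⟨Finset.sdiff_subset, fun h => ?_⟩
      exact (Finset.mem_sdiff.1 (h hx)).2 hxO
    have hrest : ∑ y ∈ s \ O, f y ∈ W := by
      refine ih _ hcard (s \ O) rfl ?_ ?_
      · intro y hy
        rw [Finset.mem_sdiff] at hy ⊢
        refine ⟨hs y hy.1, fun hyO => hy.2 ?_⟩
        obtain ⟨j, hj, hjy⟩ := Finset.mem_image.1 hyO
        -- `y = τ^[p - 1] (τ y)`
        have h5 : y = τ^[p - 1 + j] x := by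
          rw [Function.iterate_add_apply]
          have hjy' : τ^[j] x = τ y := hjy
          rw [hjy', ← Function.iterate_succ_apply, Nat.succ_eq_add_one, Nat.sub_add_cancel hp.one_le, hτ]
        rw [h5]
        refine Finset.mem_image.2 ⟨(p - 1 + j) % p, by simpa using Nat.mod_lt _ hp.pos, ?_⟩
        have h6 : Function.IsPeriodicPt τ p x := hτ x
        exact h6.iterate_mod_apply _
      · intro y hy
        exact hs' y (Finset.mem_sdiff.1 hy).1
    rw [← Finset.sum_sdiff hO]
    exact W.add_mem hrest (hOsum ▸ hf x (hs' x hx))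

end orbits

/-! ### Stable subgroups -/

section stable

variable {G : Type*} [Group G]

theorem iterate_mul (σ : G ≃* G) (n : ℕ) (a b : G) : (⇑σ)^[n] (a * b) = (⇑σ)^[n] a * (⇑σ)^[n] b := by
  induction n generalizing a b with
  | zero => rfl
  | succ n ih => rw [Function.iterate_succ_apply, Function.iterate_succ_apply, Function.iterate_succ_apply,
      map_mul, ih]

theorem iterate_one (σ : G ≃* G) (n : ℕ) : (⇑σ)^[n] (1 : G) = 1 := by
  induction n with
  | zero => rfl
  | succ n ih => rw [Function.iterate_succ_apply, map_one, ih]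

theorem iterate_inv (σ : G ≃* G) (n : ℕ) (a : G) : (⇑σ)^[n] a⁻¹ = ((⇑σ)^[n] a)⁻¹ := by
  induction n generalizing a with
  | zero => rfl
  | succ n ih => rw [Function.iterate_succ_apply, Function.iterate_succ_apply, map_inv, ih]

/-- The largest `σ`-stable subgroup of `U`. -/
def core (σ : G ≃* G) (U : Subgroup G) : Subgroup G where
  carrier := {g | ∀ n : ℕ, (⇑σ)^[n] g ∈ U}
  mul_mem' := fun {a b} ha hb n => by rw [iterate_mul]; exact U.mul_mem (ha n) (hb n)
  one_mem' := fun n => by rw [iterate_one]; exact U.one_mem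
  inv_mem' := fun {a} ha n => by rw [iterate_inv]; exact U.inv_mem (ha n)

theorem core_le (σ : G ≃* G) (U : Subgroup G) : core σ U ≤ U := fun _ hg => hg 0

theorem core_stable (σ : G ≃* G) (U : Subgroup G) : ∀ g ∈ core σ U, σ g ∈ core σ U := fun g hg n => by
  rw [← Function.iterate_succ_apply]; exact hg (n + 1)

theorem core_isOpen [TopologicalSpace G] (σ : G ≃* G) (hσc : Continuous σ) {p : ℕ} (hp : 0 < p)
    (hσ : ∀ g, (⇑σ)^[p] g = g) (U : Subgroup G) (hU : IsOpen (U : Set G)) :
    IsOpen (core σ U : Set G) := by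
  have h1 : (core σ U : Set G) = ⋂ n ∈ range p, (⇑σ)^[n] ⁻¹' (U : Set G) := by
    ext g
    simp only [Set.mem_iInter, Set.mem_preimage, SetLike.mem_coe]
    constructor
    · intro hg n _
      exact hg n
    · intro hg n
      have h2 : Function.IsPeriodicPt (⇑σ) p g := hσ g
      rw [← h2.iterate_mod_apply n]
      exact hg (n % p) (by simpa using Nat.mod_lt n hp)
  rw [h1]
  exact isOpen_biInter_finset fun n _ => hU.preimage (hσc.iterate n)

/-- The self-map of `M / M'` induced by `x ↦ σ x` on the coset `u M`. -/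
theorem exists_approx (σ : G ≃* G) {p : ℕ} [Fact p.Prime] (hσ : ∀ g, (⇑σ)^[p] g = g)
    (M : Subgroup G) (hMs : ∀ g ∈ M, σ g ∈ M) (M' : Subgroup G) (hM's : ∀ g ∈ M', σ g ∈ M')
    (hidx : ¬ p ∣ M'.relIndex M) (u : G) (hu : u⁻¹ * σ u ∈ M) :
    ∃ m ∈ M, (u * m)⁻¹ * σ (u * m) ∈ M' := by
  classical
  have hne : M'.relIndex M ≠ 0 := fun h => hidx (h ▸ dvd_zero p)
  have : (M'.subgroupOf M).FiniteIndex := ⟨hne⟩
  have hfin : Finite (M ⧸ M'.subgroupOf M) := Subgroup.finite_quotient_of_finiteIndex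
  have := Fintype.ofFinite (M ⧸ M'.subgroupOf M)
  let g : M → M := fun m => ⟨u⁻¹ * σ u * σ m, M.mul_mem hu (hMs _ m.2)⟩
  have hg : ∀ m m' : M, m⁻¹ * m' ∈ M'.subgroupOf M → (g m)⁻¹ * g m' ∈ M'.subgroupOf M := by
    intro m m' h
    rw [Subgroup.mem_subgroupOf] at h ⊢
    have h1 : (((g m)⁻¹ * g m' : M) : G) = σ ((m⁻¹ * m' : M) : G) := by
      simp only [g, Subgroup.coe_mul, Subgroup.coe_inv, map_mul, map_inv]
      group
    rw [h1]
    exact hM's _ h
  let f : M ⧸ M'.subgroupOf M → M ⧸ M'.subgroupOf M := Quotient.map' g fun a b hab => by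
    rw [QuotientGroup.leftRel_apply] at hab ⊢
    exact hg a b hab
  have hfmk : ∀ m : M, f (QuotientGroup.mk m) = QuotientGroup.mk (g m) := fun m => rfl
  have hgit : ∀ (n : ℕ) (m : M), u * ((g^[n] m : M) : G) = (⇑σ)^[n] (u * m) := by
    intro n
    induction n with
    | zero => intro m; rfl
    | succ n ih =>
      intro m
      rw [Function.iterate_succ_apply', Function.iterate_succ_apply', ← ih m]
      simp only [g, map_mul]
      group
  have hgp : ∀ m : M, g^[p] m = m := by
    intro m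
    have h1 := hgit p m
    rw [hσ] at h1
    exact Subtype.ext (mul_left_cancel h1)
  have hfit : ∀ (n : ℕ) (m : M), f^[n] (QuotientGroup.mk m) = QuotientGroup.mk (g^[n] m) := by
    intro n
    induction n with
    | zero => intro m; rfl
    | succ n ih =>
      intro m
      rw [Function.iterate_succ_apply, hfmk, ih, Function.iterate_succ_apply]
  let F : Function.End (M ⧸ M'.subgroupOf M) := f
  have h2 : ∀ (n : ℕ), F ^ n = f^[n] := by
    intro n
    induction n with
    | zero => rfl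
    | succ n ih => rw [pow_succ, ih]; rfl
  have hfp : F ^ p ^ 1 = 1 := by
    rw [pow_one, h2]
    funext x
    induction x using QuotientGroup.induction_on with
    | H m =>
      have h1 := hfit p m
      rw [hgp] at h1
      exact h1
  have hcard := Equiv.Perm.card_fixedPoints_modEq hfp
  have hex : ∃ x, f x = x := by
    by_contra hno
    push Not at hno
    have h0 : Fintype.card (Function.fixedPoints f) = 0 := by
      rw [Fintype.card_eq_zero_iff]
      exact ⟨fun x => hno x.1 x.2⟩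
    have h1 : Fintype.card (M ⧸ M'.subgroupOf M) ≡ 0 [MOD p] := by
      rw [← h0]; convert hcard
    apply hidx
    have h2 : M'.relIndex M = Fintype.card (M ⧸ M'.subgroupOf M) := by
      rw [Subgroup.relIndex, Subgroup.index, Nat.card_eq_fintype_card]
    rw [h2]
    exact (Nat.modEq_zero_iff_dvd).1 h1
  obtain ⟨x, hx⟩ := hex
  induction x using QuotientGroup.induction_on with
  | H m =>
    rw [hfmk] at hx
    have h1 := QuotientGroup.eq.1 hx.symm
    rw [Subgroup.mem_subgroupOf] at h1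
    refine ⟨m, m.2, ?_⟩
    have h2 : ((m⁻¹ * g m : M) : G) = (u * m)⁻¹ * σ (u * m) := by
      simp only [g, Subgroup.coe_mul, Subgroup.coe_inv, map_mul]
      group
    rw [← h2]
    exact h1

/-- A `σ`-stable coset of a `σ`-stable compact open subgroup `M` contains a fixed point of `σ`, if the indices of
the open subgroups of `M` are prime to `p`. -/
theorem exists_fixed [TopologicalSpace G] [IsTopologicalGroup G] [T2Space G]
    (hbasis : ∀ O : Set G, IsOpen O → (1 : G) ∈ O → ∃ U : Subgroup G, IsOpen (U : Set G) ∧ (U : Set G) ⊆ O)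
    (σ : G ≃* G) (hσc : Continuous σ) {p : ℕ} [Fact p.Prime] (hσ : ∀ g, (⇑σ)^[p] g = g)
    (M : Subgroup G) (hMo : IsOpen (M : Set G)) (hMc : IsCompact (M : Set G)) (hMs : ∀ g ∈ M, σ g ∈ M)
    (hM : ∀ M' : Subgroup G, IsOpen (M' : Set G) → M' ≤ M → ¬ p ∣ M'.relIndex M)
    (u : G) (hu : u⁻¹ * σ u ∈ M) : ∃ m ∈ M, σ (u * m) = u * m := by
  have hp := (Fact.out : p.Prime)
  let ι := {M' : Subgroup G // IsOpen (M' : Set G) ∧ M' ≤ M ∧ ∀ g ∈ M', σ g ∈ M'}
  let t : ι → Set G := fun M' => {x | u⁻¹ * x ∈ M ∧ x⁻¹ * σ x ∈ M'.1}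
  have hcl : ∀ i, IsClosed (t i) := by
    intro i
    have h1 : IsClosed (M : Set G) := M.isClosed_of_isOpen hMo
    have h2 : IsClosed (i.1 : Set G) := i.1.isClosed_of_isOpen i.2.1
    exact (h1.preimage (continuous_const.mul continuous_id)).inter
      (h2.preimage (continuous_inv.mul hσc))
  have hcpt : ∀ i, IsCompact (t i) := by
    intro i
    refine IsCompact.of_isClosed_subset (hMc.image (continuous_const_mul u)) (hcl i) ?_
    rintro x ⟨hx, -⟩
    exact ⟨u⁻¹ * x, hx, mul_inv_cancel_left u x⟩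
  have hne : ∀ i, (t i).Nonempty := by
    intro i
    obtain ⟨m, hm, h⟩ := exists_approx σ hσ M hMs i.1 i.2.2.2 (hM i.1 i.2.1 i.2.2.1) u hu
    exact ⟨u * m, by simpa using hm, h⟩
  have hdir : Directed (fun x1 x2 => x1 ⊇ x2) t := by
    intro i j
    refine ⟨⟨i.1 ⊓ j.1, i.2.1.inter j.2.1, inf_le_left.trans i.2.2.1, fun g hg =>
      ⟨i.2.2.2 g hg.1, j.2.2.2 g hg.2⟩⟩, ?_, ?_⟩
    · rintro x ⟨h1, h2⟩
      exact ⟨h1, h2.1⟩
    · rintro x ⟨h1, h2⟩
      exact ⟨h1, h2.2⟩
  have : Nonempty ι := ⟨⟨M, hMo, le_rfl, hMs⟩⟩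
  obtain ⟨x, hx⟩ := IsCompact.nonempty_iInter_of_directed_nonempty_isCompact_isClosed t hdir hne hcpt hcl
  rw [Set.mem_iInter] at hx
  refine ⟨u⁻¹ * x, (hx ⟨M, hMo, le_rfl, hMs⟩).1, ?_⟩
  rw [mul_inv_cancel_left]
  by_contra hne1
  have h1 : x⁻¹ * σ x ≠ 1 := fun h => hne1 ((inv_mul_eq_one.1 h).symm)
  obtain ⟨U, hU, hUsub⟩ := hbasis {x⁻¹ * σ x}ᶜ isOpen_compl_singleton (fun h => h1 (Set.mem_singleton_iff.1 h).symm)
  let W : ι := ⟨core σ U ⊓ M, (core_isOpen σ hσc hp.pos hσ U hU).inter hMo, inf_le_right,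
    fun g hg => ⟨core_stable σ U g hg.1, hMs g hg.2⟩⟩
  have h2 := (hx W).2
  exact hUsub (core_le σ U h2.1) rfl

end stable

/-! ### The trace from `V^M` to `V^U` -/

section trace

variable {k G V : Type*} [Field k] [Group G] [AddCommGroup V] [Module k V]

theorem out_eq (ρ : Representation k G V) (U M : Subgroup G) (y : V) (hy : ∀ m ∈ M, ρ m y = y) (u : U) :
    ρ ((Quotient.out (QuotientGroup.mk u : U ⧸ M.subgroupOf U) : U) : G) y = ρ (u : G) y := by
  have h1 : (QuotientGroup.mk (Quotient.out (QuotientGroup.mk u : U ⧸ M.subgroupOf U)) : U ⧸ M.subgroupOf U) =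
      QuotientGroup.mk u := QuotientGroup.out_eq' _
  have h2 := QuotientGroup.eq.1 h1.symm
  rw [Subgroup.mem_subgroupOf] at h2
  have h3 := hy _ h2
  have h4 : ((Quotient.out (QuotientGroup.mk u : U ⧸ M.subgroupOf U) : U) : G) =
      (u : G) * ((u⁻¹ * Quotient.out (QuotientGroup.mk u : U ⧸ M.subgroupOf U) : U) : G) := by
    simp
  rw [h4, map_mul, Module.End.mul_apply, h3]

/-- `∑ ρ(x)`, `x ∈ U / M`. -/
noncomputable def tr (U M : Subgroup G) [Fintype (U ⧸ M.subgroupOf U)] (ρ : Representation k G V) :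
    Module.End k V :=
  ∑ x : U ⧸ M.subgroupOf U, ρ ((x.out : U) : G)

theorem tr_apply (U M : Subgroup G) [Fintype (U ⧸ M.subgroupOf U)] (ρ : Representation k G V) (y : V) :
    tr U M ρ y = ∑ x : U ⧸ M.subgroupOf U, ρ ((x.out : U) : G) y := by
  simp [tr, LinearMap.sum_apply]

theorem tr_invariant (U M : Subgroup G) [Fintype (U ⧸ M.subgroupOf U)] (ρ : Representation k G V) (y : V)
    (hy : ∀ m ∈ M, ρ m y = y) : tr U M ρ y ∈ fixedVectors ρ U := by
  intro g hg
  rw [tr_apply, map_sum]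
  refine Fintype.sum_equiv (MulAction.toPerm (⟨g, hg⟩ : U)) _ _ fun x => ?_
  induction x using QuotientGroup.induction_on with
  | H u =>
    rw [MulAction.toPerm_apply]
    have h1 : (⟨g, hg⟩ : U) • (QuotientGroup.mk u : U ⧸ M.subgroupOf U) = QuotientGroup.mk (⟨g, hg⟩ * u) := rfl
    rw [h1, out_eq ρ U M y hy, out_eq ρ U M y hy]
    simp [map_mul]

/-- The map `τ` on `U / M` induced by `σ`. -/
def tau (σ : G ≃* G) (U M : Subgroup G) (hU : ∀ g ∈ U, σ g ∈ U) (hM : ∀ g ∈ M, σ g ∈ M) :
    U ⧸ M.subgroupOf U → U ⧸ M.subgroupOf U :=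
  Quotient.map' (fun u : U => (⟨σ u, hU u u.2⟩ : U)) fun a b hab => by
    rw [QuotientGroup.leftRel_apply] at hab ⊢
    rw [Subgroup.mem_subgroupOf] at hab ⊢
    have h1 : (((⟨σ a, hU a a.2⟩ : U)⁻¹ * ⟨σ b, hU b b.2⟩ : U) : G) = σ ((a⁻¹ * b : U) : G) := by simp
    rw [h1]
    exact hM _ hab

theorem tau_mk (σ : G ≃* G) (U M : Subgroup G) (hU : ∀ g ∈ U, σ g ∈ U) (hM : ∀ g ∈ M, σ g ∈ M) (u : U) :
    tau σ U M hU hM (QuotientGroup.mk u) = QuotientGroup.mk (⟨σ u, hU u u.2⟩ : U) := rfl

theorem iterate_mem (σ : G ≃* G) (U : Subgroup G) (hU : ∀ g ∈ U, σ g ∈ U) (n : ℕ) (g : G) (hg : g ∈ U) :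
    (⇑σ)^[n] g ∈ U := by
  induction n with
  | zero => exact hg
  | succ n ih => rw [Function.iterate_succ_apply']; exact hU _ ih

theorem tau_iterate (σ : G ≃* G) (U M : Subgroup G) (hU : ∀ g ∈ U, σ g ∈ U) (hM : ∀ g ∈ M, σ g ∈ M)
    (n : ℕ) (u : U) : (tau σ U M hU hM)^[n] (QuotientGroup.mk u) =
      QuotientGroup.mk (⟨(⇑σ)^[n] u, iterate_mem σ U hU n u u.2⟩ : U) := by
  induction n with
  | zero => rfl
  | succ n ih =>
    rw [Function.iterate_succ_apply', ih, tau_mk]
    congr 1
    exact Subtype.ext (Function.iterate_succ_apply' _ _ _).symm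

theorem tau_period (σ : G ≃* G) {p : ℕ} (hσ : ∀ g, (⇑σ)^[p] g = g) (U M : Subgroup G)
    (hU : ∀ g ∈ U, σ g ∈ U) (hM : ∀ g ∈ M, σ g ∈ M) (x : U ⧸ M.subgroupOf U) :
    (tau σ U M hU hM)^[p] x = x := by
  induction x using QuotientGroup.induction_on with
  | H u =>
    rw [tau_iterate]
    congr 1
    exact Subtype.ext (hσ u)

theorem tau_bijective (σ : G ≃* G) {p : ℕ} (hp : 0 < p) (hσ : ∀ g, (⇑σ)^[p] g = g) (U M : Subgroup G)
    (hU : ∀ g ∈ U, σ g ∈ U) (hM : ∀ g ∈ M, σ g ∈ M) : Function.Bijective (tau σ U M hU hM) := by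
  have h1 : Function.LeftInverse ((tau σ U M hU hM)^[p - 1]) (tau σ U M hU hM) := fun x => by
    rw [← Function.iterate_succ_apply, Nat.succ_eq_add_one, Nat.sub_add_cancel hp]
    exact tau_period σ hσ U M hU hM x
  have h2 : Function.RightInverse ((tau σ U M hU hM)^[p - 1]) (tau σ U M hU hM) := fun x => by
    rw [← Function.iterate_succ_apply' (tau σ U M hU hM) (p - 1) x, Nat.succ_eq_add_one, Nat.sub_add_cancel hp]
    exact tau_period σ hσ U M hU hM x
  exact ⟨h1.injective, h2.surjective⟩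

theorem S_rho {σ : G ≃* G} {p : ℕ} {ρ : Representation k G V} {S : Module.End k V}
    (hS : IsExtension σ p ρ S) (g : G) (v : V) : S (ρ g v) = ρ (σ g) (S v) :=
  LinearMap.congr_fun (hS.comm g) v

theorem S_pow_rho {σ : G ≃* G} {p : ℕ} {ρ : Representation k G V} {S : Module.End k V}
    (hS : IsExtension σ p ρ S) (n : ℕ) (g : G) (v : V) : (S ^ n) (ρ g v) = ρ ((⇑σ)^[n] g) ((S ^ n) v) := by
  induction n generalizing g v with
  | zero => simp
  | succ n ih =>
    rw [pow_succ, Module.End.mul_apply, S_rho hS, ih, Function.iterate_succ_apply, Module.End.mul_apply]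

theorem S_tr {σ : G ≃* G} {p : ℕ} (hp : 0 < p) (hσ : ∀ g, (⇑σ)^[p] g = g) {ρ : Representation k G V}
    {S : Module.End k V} (hS : IsExtension σ p ρ S) (U M : Subgroup G) [Fintype (U ⧸ M.subgroupOf U)]
    (hU : ∀ g ∈ U, σ g ∈ U) (hM : ∀ g ∈ M, σ g ∈ M) (y : V) (hy : ∀ m ∈ M, ρ m y = y)
    (hy' : ∀ m ∈ M, ρ m (S y) = S y) : S (tr U M ρ y) = tr U M ρ (S y) := by
  rw [tr_apply, tr_apply, map_sum]
  refine Fintype.sum_bijective (tau σ U M hU hM) (tau_bijective σ hp hσ U M hU hM) _ _ fun x => ?_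
  induction x using QuotientGroup.induction_on with
  | H u =>
    rw [tau_mk, out_eq ρ U M y hy, out_eq ρ U M (S y) hy', S_rho hS]

end trace

/-! ### The main lemma -/

section key

variable {k G V : Type*} [Field k] [Group G] [AddCommGroup V] [Module k V]

/-- The subgroup of the elements of `U` which fix `v, S v, S² v, …`. -/
def stabAll (ρ : Representation k G V) (S : Module.End k V) (U : Subgroup G) (v : V) : Subgroup G where
  carrier := {u | u ∈ U ∧ ∀ i : ℕ, ρ u ((S ^ i) v) = (S ^ i) v}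
  mul_mem' := fun {a b} ha hb => ⟨U.mul_mem ha.1 hb.1, fun i => by
    rw [map_mul, Module.End.mul_apply, hb.2 i, ha.2 i]⟩
  one_mem' := ⟨U.one_mem, fun i => by simp⟩
  inv_mem' := fun {a} ha => ⟨U.inv_mem ha.1, fun i => by
    have h1 := ha.2 i
    have h2 : ρ a⁻¹ (ρ a ((S ^ i) v)) = (S ^ i) v := by
      rw [← Module.End.mul_apply, ← map_mul, inv_mul_cancel, map_one, Module.End.one_apply]
    rw [h1] at h2
    exact h2⟩

theorem stabAll_le (ρ : Representation k G V) (S : Module.End k V) (U : Subgroup G) (v : V) :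
    stabAll ρ S U v ≤ U := fun _ h => h.1

theorem stabAll_stable {σ : G ≃* G} {p : ℕ} (hp : 0 < p) {ρ : Representation k G V} {S : Module.End k V}
    (hS : IsExtension σ p ρ S) (U : Subgroup G) (hU : ∀ g ∈ U, σ g ∈ U) (v : V) :
    ∀ g ∈ stabAll ρ S U v, σ g ∈ stabAll ρ S U v := by
  intro g hg
  refine ⟨hU g hg.1, fun i => ?_⟩
  have h1 : (S ^ i) v = S ((S ^ (i + (p - 1))) v) := by
    rw [← Module.End.mul_apply, ← pow_succ', add_assoc, Nat.sub_add_cancel hp, pow_add, hS.pow, mul_one]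
  rw [h1, ← S_rho hS, hg.2]

theorem S_pow_mod {σ : G ≃* G} {p : ℕ} {ρ : Representation k G V} {S : Module.End k V}
    (hS : IsExtension σ p ρ S) (i : ℕ) : S ^ i = S ^ (i % p) := by
  conv_lhs => rw [← Nat.div_add_mod i p, pow_add, pow_mul, hS.pow, one_pow, one_mul]

theorem stabAll_isOpen [TopologicalSpace G] {σ : G ≃* G} {p : ℕ} (hp : 0 < p) {ρ : Representation k G V}
    {S : Module.End k V} (hS : IsExtension σ p ρ S) (hsm : ∀ v : V, IsOpen {g : G | ρ g v = v})
    (U : Subgroup G) (hU : IsOpen (U : Set G)) (v : V) : IsOpen (stabAll ρ S U v : Set G) := by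
  have h1 : (stabAll ρ S U v : Set G) = (U : Set G) ∩ ⋂ i ∈ range p, {g : G | ρ g ((S ^ i) v) = (S ^ i) v} := by
    ext g
    simp only [Set.mem_inter_iff, Set.mem_iInter]
    constructor
    · intro hg
      exact ⟨hg.1, fun i _ => hg.2 i⟩
    · intro hg
      refine ⟨hg.1, fun i => ?_⟩
      rw [S_pow_mod hS i]
      exact hg.2 (i % p) (by simpa using Nat.mod_lt i hp)
  rw [h1]
  exact hU.inter (isOpen_biInter_finset fun i _ => hsm _)

/-- The hypotheses on the group: a compact open `σ`-stable subgroup `U` whose open subgroups have index prime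
to `p`. -/
structure Good [TopologicalSpace G] (σ : G ≃* G) (p : ℕ) (U : Subgroup G) : Prop where
  isOpen : IsOpen (U : Set G)
  isCompact : IsCompact (U : Set G)
  stable : ∀ g ∈ U, σ g ∈ U
  index : ∀ M : Subgroup G, IsOpen (M : Set G) → M ≤ U → ¬ p ∣ M.relIndex U

theorem exists_trace [TopologicalSpace G] [IsTopologicalGroup G] [T2Space G]
    (hbasis : ∀ O : Set G, IsOpen O → (1 : G) ∈ O → ∃ U : Subgroup G, IsOpen (U : Set G) ∧ (U : Set G) ⊆ O)
    {σ : G ≃* G} (hσc : Continuous σ) {p : ℕ} [Fact p.Prime] (hσ : ∀ g, (⇑σ)^[p] g = g) [CharP k p]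
    {ρ : Representation k G V} {S : Module.End k V} (hS : IsExtension σ p ρ S)
    (hsm : ∀ v : V, IsOpen {g : G | ρ g v = v}) {U : Subgroup G} (hU : Good σ p U) (W : Submodule k V) (v : V)
    (h1 : ∀ x ∈ U, ∑ j ∈ range p, ρ ((⇑σ)^[j] x) v ∈ W)
    (h2 : ∀ h ∈ U, σ h = h → ρ h v - v ∈ W) :
    ∃ (M : Subgroup G) (_ : Fintype (U ⧸ M.subgroupOf U)) (c : k), (∀ g ∈ M, σ g ∈ M) ∧
      (∀ m ∈ M, ∀ i : ℕ, ρ m ((S ^ i) v) = (S ^ i) v) ∧ v - c • tr U M ρ v ∈ W := by
  classical
  have hp := (Fact.out : p.Prime)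
  let M := stabAll ρ S U v
  have hMo : IsOpen (M : Set G) := stabAll_isOpen hp.pos hS hsm U hU.isOpen v
  have hMU : M ≤ U := stabAll_le ρ S U v
  have hMs : ∀ g ∈ M, σ g ∈ M := stabAll_stable hp.pos hS U hU.stable v
  have hidx := hU.index M hMo hMU
  have hne : M.relIndex U ≠ 0 := fun h => hidx (h ▸ dvd_zero p)
  have : (M.subgroupOf U).FiniteIndex := ⟨hne⟩
  have hfin : Finite (U ⧸ M.subgroupOf U) := Subgroup.finite_quotient_of_finiteIndex
  let _ := Fintype.ofFinite (U ⧸ M.subgroupOf U)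
  have hMv : ∀ m ∈ M, ρ m v = v := fun m hm => by simpa using hm.2 0
  let τ := tau σ U M hU.stable hMs
  let f : U ⧸ M.subgroupOf U → V := fun x => ρ ((x.out : U) : G) v
  have hf : ∀ u : U, f (QuotientGroup.mk u) = ρ (u : G) v := fun u => out_eq ρ U M v hMv u
  -- the sum over the points which are not fixed
  have hsum1 : ∑ x ∈ Finset.univ.filter (fun x => τ x ≠ x), f x ∈ W.toAddSubgroup := by
    refine sum_mem_of_orbits W.toAddSubgroup hp τ (tau_period σ hσ U M hU.stable hMs) f ?_ _ _ rfl ?_ ?_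
    · intro x _
      induction x using QuotientGroup.induction_on with
      | H u =>
        have h3 : ∑ j ∈ range p, f (τ^[j] (QuotientGroup.mk u)) = ∑ j ∈ range p, ρ ((⇑σ)^[j] (u : G)) v := by
          refine Finset.sum_congr rfl fun j _ => ?_
          rw [show τ^[j] (QuotientGroup.mk u) = _ from tau_iterate σ U M hU.stable hMs j u, hf]
        rw [h3]
        exact h1 u u.2
    · intro x hx
      rw [Finset.mem_filter] at hx ⊢
      exact ⟨Finset.mem_univ _, fun h => hx.2 ((tau_bijective σ hp.pos hσ U M hU.stable hMs).1 h)⟩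
    · intro x hx
      exact (Finset.mem_filter.1 hx).2
  -- the fixed points
  have hfix : ∀ x : U ⧸ M.subgroupOf U, τ x = x → f x - v ∈ W := by
    intro x hx
    induction x using QuotientGroup.induction_on with
    | H u =>
      rw [show τ (QuotientGroup.mk u) = _ from tau_mk σ U M hU.stable hMs u] at hx
      have h3 := QuotientGroup.eq.1 hx.symm
      rw [Subgroup.mem_subgroupOf] at h3
      have h4 : (u : G)⁻¹ * σ u ∈ M := by simpa using h3
      obtain ⟨m, hm, hm2⟩ := exists_fixed hbasis σ hσc hσ M hMo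
        (hU.isCompact.of_isClosed_subset (M.isClosed_of_isOpen hMo) hMU) hMs (fun M' hM'o hM'M hdvd => by
          refine hU.index M' hM'o (hM'M.trans hMU) ?_
          rw [← Subgroup.relIndex_mul_relIndex M' M U hM'M hMU]
          exact hdvd.mul_right _) (u : G) h4
      have h5 := h2 ((u : G) * m) (U.mul_mem u.2 (hMU hm)) hm2
      rw [hf]
      rw [map_mul, Module.End.mul_apply, hMv m hm] at h5
      exact h5
  have hsum2 : ∑ x ∈ Finset.univ.filter (fun x => ¬ τ x ≠ x), (f x - v) ∈ W := by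
    refine W.sum_mem fun x hx => hfix x ?_
    exact not_not.1 (Finset.mem_filter.1 hx).2
  have hcardmod : (Fintype.card (U ⧸ M.subgroupOf U) : k) =
      ((Finset.univ.filter (fun x => ¬ τ x ≠ x)).card : k) := by
    let F : Function.End (U ⧸ M.subgroupOf U) := τ
    have h3 : ∀ (n : ℕ), F ^ n = τ^[n] := by
      intro n
      induction n with
      | zero => rfl
      | succ n ih => rw [pow_succ, ih]; rfl
    have hFp : F ^ p ^ 1 = 1 := by
      rw [pow_one, h3]
      funext x
      exact tau_period σ hσ U M hU.stable hMs x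
    have h4 := Equiv.Perm.card_fixedPoints_modEq hFp
    have h5 : Fintype.card (Function.fixedPoints F) = (Finset.univ.filter (fun x => ¬ τ x ≠ x)).card := by
      rw [Fintype.card_of_subtype (Finset.univ.filter (fun x => ¬ τ x ≠ x))]
      intro x
      simp only [Finset.mem_filter, Finset.mem_univ, true_and, not_not]
      exact Iff.rfl
    rw [← h5]
    exact (CharP.natCast_eq_natCast k p).2 h4
  have hcne : (Fintype.card (U ⧸ M.subgroupOf U) : k) ≠ 0 := by
    intro h0
    rw [CharP.cast_eq_zero_iff k p] at h0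
    apply hidx
    rw [Subgroup.relIndex, Subgroup.index, Nat.card_eq_fintype_card]
    exact h0
  refine ⟨M, inferInstance, (Fintype.card (U ⧸ M.subgroupOf U) : k)⁻¹, hMs, fun m hm i => hm.2 i, ?_⟩
  have hmain : tr U M ρ v - (Fintype.card (U ⧸ M.subgroupOf U) : k) • v ∈ W := by
    have h3 : tr U M ρ v - (Fintype.card (U ⧸ M.subgroupOf U) : k) • v =
        ∑ x ∈ Finset.univ.filter (fun x => τ x ≠ x), f x +
        ∑ x ∈ Finset.univ.filter (fun x => ¬ τ x ≠ x), (f x - v) := by
      rw [tr_apply, Finset.sum_sub_distrib, Finset.sum_const, ← add_sub_assoc,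
        Finset.sum_filter_add_sum_filter_not, hcardmod, Nat.cast_smul_eq_nsmul]
    rw [h3]
    exact W.add_mem hsum1 hsum2
  have h4 : v - (Fintype.card (U ⧸ M.subgroupOf U) : k)⁻¹ • tr U M ρ v =
      -((Fintype.card (U ⧸ M.subgroupOf U) : k)⁻¹ •
        (tr U M ρ v - (Fintype.card (U ⧸ M.subgroupOf U) : k) • v)) := by
    rw [smul_sub, inv_smul_smul₀ hcne]
    abel
  rw [h4]
  exact W.neg_mem (W.smul_mem _ hmain)

theorem S_pow_tr {σ : G ≃* G} {p : ℕ} (hp : 0 < p) (hσ : ∀ g, (⇑σ)^[p] g = g) {ρ : Representation k G V}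
    {S : Module.End k V} (hS : IsExtension σ p ρ S) (U M : Subgroup G) [Fintype (U ⧸ M.subgroupOf U)]
    (hU : ∀ g ∈ U, σ g ∈ U) (hM : ∀ g ∈ M, σ g ∈ M) (y : V)
    (hy : ∀ m ∈ M, ∀ i : ℕ, ρ m ((S ^ i) y) = (S ^ i) y) (n : ℕ) :
    (S ^ n) (tr U M ρ y) = tr U M ρ ((S ^ n) y) := by
  induction n with
  | zero => simp
  | succ n ih =>
    rw [pow_succ', Module.End.mul_apply, ih, S_tr hp hσ hS U M hU hM _ (fun m hm => hy m hm n) ?_]
    · rfl
    · intro m hm
      have := hy m hm (n + 1)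
      rwa [pow_succ', Module.End.mul_apply] at this

theorem norm_tr {σ : G ≃* G} {p : ℕ} (hp : 0 < p) (hσ : ∀ g, (⇑σ)^[p] g = g) {ρ : Representation k G V}
    {S : Module.End k V} (hS : IsExtension σ p ρ S) (U M : Subgroup G) [Fintype (U ⧸ M.subgroupOf U)]
    (hU : ∀ g ∈ U, σ g ∈ U) (hM : ∀ g ∈ M, σ g ∈ M) (y : V)
    (hy : ∀ m ∈ M, ∀ i : ℕ, ρ m ((S ^ i) y) = (S ^ i) y) :
    norm p S (tr U M ρ y) = tr U M ρ (norm p S y) := by
  simp only [norm, LinearMap.sum_apply, map_sum]
  exact Finset.sum_congr rfl fun i _ => S_pow_tr hp hσ hS U M hU hM y hy i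

theorem norm_mul_S {σ : G ≃* G} {p : ℕ} {ρ : Representation k G V} {S : Module.End k V}
    (hS : IsExtension σ p ρ S) : (1 - S) * norm p S = 0 := by
  rw [norm, mul_neg_geom_sum, hS.pow, sub_self]

theorem S_norm {σ : G ≃* G} {p : ℕ} {ρ : Representation k G V} {S : Module.End k V}
    (hS : IsExtension σ p ρ S) (v : V) : S (norm p S v) = norm p S v := by
  have h1 := LinearMap.congr_fun (norm_mul_S hS) v
  simp only [Module.End.mul_apply, LinearMap.sub_apply, Module.End.one_apply, LinearMap.zero_apply] at h1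
  exact (sub_eq_zero.1 h1).symm

theorem sub_pow_mem (S : Module.End k V) (n : ℕ) (z : V) : (S ^ n) z - z ∈ LinearMap.range (1 - S) := by
  have h1 := mul_neg_geom_sum S n
  have h2 := LinearMap.congr_fun h1 z
  simp only [Module.End.mul_apply, LinearMap.sub_apply, Module.End.one_apply] at h2
  refine ⟨-((∑ i ∈ range n, S ^ i) z), ?_⟩
  rw [map_neg, LinearMap.sub_apply, Module.End.one_apply, h2]
  abel

/-- The classes in `T⁰` fixed by `U^σ` come from `V^U`. -/
theorem lift0 [TopologicalSpace G] [IsTopologicalGroup G] [T2Space G]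
    (hbasis : ∀ O : Set G, IsOpen O → (1 : G) ∈ O → ∃ U : Subgroup G, IsOpen (U : Set G) ∧ (U : Set G) ⊆ O)
    {σ : G ≃* G} (hσc : Continuous σ) {p : ℕ} [Fact p.Prime] (hσ : ∀ g, (⇑σ)^[p] g = g) [CharP k p]
    {ρ : Representation k G V} {S : Module.End k V} (hS : IsExtension σ p ρ S)
    (hsm : ∀ v : V, IsOpen {g : G | ρ g v = v}) {U : Subgroup G} (hU : Good σ p U) (v : V)
    (hv : (1 - S) v = 0) (h2 : ∀ h ∈ U, σ h = h → ρ h v - v ∈ LinearMap.range (norm p S)) :
    ∃ w ∈ fixedVectors ρ U, (1 - S) w = 0 ∧ v - w ∈ LinearMap.range (norm p S) := by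
  have hp := (Fact.out : p.Prime)
  have hSv : S v = v := by
    rw [LinearMap.sub_apply, Module.End.one_apply] at hv
    exact (sub_eq_zero.1 hv).symm
  have hSv' : ∀ j : ℕ, (S ^ j) v = v := by
    intro j
    induction j with
    | zero => simp
    | succ j ih => rw [pow_succ, Module.End.mul_apply, hSv, ih]
  obtain ⟨M, hF, c, hMs, hMv, hvw⟩ := exists_trace hbasis hσc hσ hS hsm hU (LinearMap.range (norm p S)) v
    (fun x _ => ⟨ρ x v, by
      simp only [norm, LinearMap.sum_apply]
      refine Finset.sum_congr rfl fun j _ => ?_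
      rw [S_pow_rho hS, hSv']⟩) h2
  refine ⟨c • tr U M ρ v, Submodule.smul_mem _ _ (tr_invariant U M ρ v fun m hm => by simpa using hMv m hm 0),
    ?_, hvw⟩
  rw [map_smul, LinearMap.sub_apply, Module.End.one_apply,
    S_tr hp.pos hσ hS U M hU.stable hMs v (fun m hm => by simpa using hMv m hm 0)
      (fun m hm => by simpa using hMv m hm 1), hSv, sub_self, smul_zero]

/-- The classes in `T¹` fixed by `U^σ` come from `V^U`. -/
theorem lift1 [TopologicalSpace G] [IsTopologicalGroup G] [T2Space G]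
    (hbasis : ∀ O : Set G, IsOpen O → (1 : G) ∈ O → ∃ U : Subgroup G, IsOpen (U : Set G) ∧ (U : Set G) ⊆ O)
    {σ : G ≃* G} (hσc : Continuous σ) {p : ℕ} [Fact p.Prime] (hσ : ∀ g, (⇑σ)^[p] g = g) [CharP k p]
    {ρ : Representation k G V} {S : Module.End k V} (hS : IsExtension σ p ρ S)
    (hsm : ∀ v : V, IsOpen {g : G | ρ g v = v}) {U : Subgroup G} (hU : Good σ p U) (v : V)
    (hv : norm p S v = 0) (h2 : ∀ h ∈ U, σ h = h → ρ h v - v ∈ LinearMap.range (1 - S)) :
    ∃ w ∈ fixedVectors ρ U, norm p S w = 0 ∧ v - w ∈ LinearMap.range (1 - S) := by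
  have hp := (Fact.out : p.Prime)
  obtain ⟨M, hF, c, hMs, hMv, hvw⟩ := exists_trace hbasis hσc hσ hS hsm hU (LinearMap.range (1 - S)) v
    (fun x _ => by
      have h3 : ∑ j ∈ range p, ρ ((⇑σ)^[j] x) v =
          ∑ j ∈ range p, ((S ^ j) (ρ x ((S ^ (p - j)) v)) - ρ x ((S ^ (p - j)) v)) +
            ∑ j ∈ range p, ρ x ((S ^ (p - j)) v) := by
        rw [← Finset.sum_add_distrib]
        refine Finset.sum_congr rfl fun j hj => ?_
        have hj' : j + (p - j) = p := Nat.add_sub_cancel' (Finset.mem_range.1 hj).le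
        rw [S_pow_rho hS, ← Module.End.mul_apply (S ^ j), ← pow_add, hj', hS.pow]
        simp
      have h4 : ∑ j ∈ range p, ρ x ((S ^ (p - j)) v) = 0 := by
        rw [← map_sum]
        have h5 : ∑ j ∈ range p, (S ^ (p - j)) v = S (norm p S v) := by
          rw [← Finset.sum_range_reflect]
          simp only [norm, LinearMap.sum_apply, map_sum]
          refine Finset.sum_congr rfl fun j hj => ?_
          rw [← Module.End.mul_apply, ← pow_succ']
          congr 2
          have := Finset.mem_range.1 hj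
          omega
        rw [h5, hv, map_zero, map_zero]
      rw [h3, h4, add_zero]
      exact Submodule.sum_mem _ fun j _ => sub_pow_mem S j _) h2
  refine ⟨c • tr U M ρ v, Submodule.smul_mem _ _ (tr_invariant U M ρ v fun m hm => by simpa using hMv m hm 0),
    ?_, hvw⟩
  rw [map_smul, norm_tr hp.pos hσ hS U M hU.stable hMs v hMv, hv, map_zero, smul_zero]

end key

/-! ### Admissibility for topological groups -/

section adm

variable {k G V : Type*} [Field k] [Group G] [AddCommGroup V] [Module k V]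

theorem subquotientRep_mk (ρ : Representation k G V) (H : Subgroup G) (A B : Module.End k V)
    (hA : ∀ h ∈ H, A * ρ h = ρ h * A) (hB : ∀ h ∈ H, B * ρ h = ρ h * B) (h : H) (v : LinearMap.ker A) :
    subquotientRep ρ H A B hA hB h (Submodule.Quotient.mk v) =
      Submodule.Quotient.mk (onKer A (ρ h) (hA h h.2) v) := rfl

theorem subquotient_smooth [TopologicalSpace G] [IsTopologicalGroup G] (ρ : Representation k G V) (H : Subgroup G)
    (A B : Module.End k V) (hA : ∀ h ∈ H, A * ρ h = ρ h * A) (hB : ∀ h ∈ H, B * ρ h = ρ h * B)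
    (hsm : ∀ v : V, IsOpen {g : G | ρ g v = v}) (t : Subquotient A B) :
    IsOpen {h : H | subquotientRep ρ H A B hA hB h t = t} := by
  obtain ⟨v, rfl⟩ := Submodule.Quotient.mk_surjective _ t
  let St : Subgroup H :=
    { carrier := {h : H | subquotientRep ρ H A B hA hB h (Submodule.Quotient.mk v) = Submodule.Quotient.mk v}
      mul_mem' := fun {a b} ha hb => by
        show subquotientRep ρ H A B hA hB (a * b) _ = _
        rw [map_mul, Module.End.mul_apply, hb, ha]
      one_mem' := by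
        show subquotientRep ρ H A B hA hB 1 _ = _
        rw [map_one]; rfl
      inv_mem' := fun {a} ha => by
        show subquotientRep ρ H A B hA hB a⁻¹ _ = _
        have ha' : subquotientRep ρ H A B hA hB a (Submodule.Quotient.mk v) = Submodule.Quotient.mk v := ha
        conv_lhs => rw [← ha']
        rw [← Module.End.mul_apply, ← map_mul, inv_mul_cancel, map_one]
        rfl }
  have h1 : IsOpen {h : H | ρ (h : G) v = v} := (hsm v).preimage continuous_subtype_val
  have h2 : (St : Set H) ∈ nhds (1 : H) := by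
    refine Filter.mem_of_superset (h1.mem_nhds (by simp)) ?_
    intro h hh
    show subquotientRep ρ H A B hA hB h _ = _
    rw [subquotientRep_mk]
    congr 1
    exact Subtype.ext hh
  exact St.isOpen_of_mem_nhds h2

theorem finite_of_lift {A B : Module.End k V} (P : Submodule k V) [FiniteDimensional k P]
    (F : Submodule k (Subquotient A B))
    (h : ∀ v : LinearMap.ker A, (Submodule.Quotient.mk v : Subquotient A B) ∈ F →
      ∃ w ∈ P, A w = 0 ∧ (v : V) - w ∈ LinearMap.range B) : FiniteDimensional k F := by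
  let Q : Submodule k (LinearMap.ker A) := P.comap (LinearMap.ker A).subtype
  have hQ : FiniteDimensional k Q := by
    let f : Q →ₗ[k] P := ((LinearMap.ker A).subtype.comp Q.subtype).codRestrict P fun x => x.2
    refine FiniteDimensional.of_injective f ?_
    intro x y hxy
    have h1 := congrArg (Subtype.val) hxy
    exact Subtype.ext (Subtype.ext h1)
  have h2 : F ≤ Q.map (Submodule.mkQ _) := by
    intro t ht
    obtain ⟨v, rfl⟩ := Submodule.Quotient.mk_surjective _ t
    obtain ⟨w, hw, hAw, hvw⟩ := h v ht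
    refine ⟨⟨w, hAw⟩, hw, ?_⟩
    rw [Submodule.mkQ_apply, eq_comm, Submodule.Quotient.eq]
    exact hvw
  have h3 : FiniteDimensional k (Q.map (Submodule.mkQ ((LinearMap.range B).comap (LinearMap.ker A).subtype))) :=
    inferInstance
  exact Submodule.finiteDimensional_of_le h2

/-- **Admissibility of Tate cohomology**, for topological groups with a compact open subgroup `P` whose open subgroups
have index prime to `p`. -/
theorem main [TopologicalSpace G] [IsTopologicalGroup G] [T2Space G]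
    (hbasis : ∀ O : Set G, IsOpen O → (1 : G) ∈ O → ∃ U : Subgroup G, IsOpen (U : Set G) ∧ (U : Set G) ⊆ O)
    {p : ℕ} [Fact p.Prime] (P : Subgroup G) (hPo : IsOpen (P : Set G)) (hPc : IsCompact (P : Set G))
    (hPi : ∀ M : Subgroup G, IsOpen (M : Set G) → M ≤ P → ¬ p ∣ M.relIndex P)
    {σ : G ≃* G} (hσc : Continuous σ) (hσ : ∀ g, (⇑σ)^[p] g = g) [CharP k p]
    {ρ : Representation k G V} (hρ : IsAdmissible ρ) {S : Module.End k V} (hS : IsExtension σ p ρ S) :
    IsAdmissible (tate0 hS) ∧ IsAdmissible (tate1 hS) := by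
  have hp := (Fact.out : p.Prime)
  -- a good subgroup
  have hgood : ∀ K : Subgroup (fixedSubgroup σ), IsOpen (K : Set (fixedSubgroup σ)) →
      ∃ U : Subgroup G, Good σ p U ∧ ∀ h : fixedSubgroup σ, (h : G) ∈ U → h ∈ K := by
    intro K hK
    obtain ⟨O, hO, hOK⟩ := isOpen_induced_iff.1 hK
    have h1O : (1 : G) ∈ O := by
      have h1 : (1 : fixedSubgroup σ) ∈ (Subtype.val ⁻¹' O : Set (fixedSubgroup σ)) := by
        rw [hOK]; exact K.one_mem
      exact h1
    obtain ⟨U₀, hU₀, hU₀O⟩ := hbasis O hO h1O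
    have hUo : IsOpen (core σ (U₀ ⊓ P) : Set G) := core_isOpen σ hσc hp.pos hσ _ (hU₀.inter hPo)
    have hUle : core σ (U₀ ⊓ P) ≤ U₀ ⊓ P := core_le σ _
    have hUP : core σ (U₀ ⊓ P) ≤ P := hUle.trans inf_le_right
    refine ⟨core σ (U₀ ⊓ P), ⟨hUo, hPc.of_isClosed_subset (Subgroup.isClosed_of_isOpen _ hUo) hUP,
      core_stable σ _, fun M hM hMU hdvd => ?_⟩, fun h hh => ?_⟩
    · refine hPi M hM (hMU.trans hUP) ?_
      rw [← Subgroup.relIndex_mul_relIndex M _ P hMU hUP]
      exact hdvd.mul_right _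
    · have h2 : h ∈ (Subtype.val ⁻¹' O : Set (fixedSubgroup σ)) := hU₀O (hUle hh).1
      rw [hOK] at h2
      exact h2
  refine ⟨⟨subquotient_smooth ρ _ _ _ _ _ hρ.smooth, fun K hK _ => ?_⟩,
    ⟨subquotient_smooth ρ _ _ _ _ _ hρ.smooth, fun K hK _ => ?_⟩⟩
  · obtain ⟨U, hU, hUK⟩ := hgood K hK
    have := hρ.finite U hU.isOpen hU.isCompact
    refine finite_of_lift (fixedVectors ρ U) _ fun v hv => ?_
    refine lift0 hbasis hσc hσ hS hρ.smooth hU v v.2 fun h hhU hh => ?_
    have h1 := hv ⟨h, hh⟩ (hUK ⟨h, hh⟩ hhU)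
    rw [tate0, subquotientRep_mk, Submodule.Quotient.eq] at h1
    exact h1
  · obtain ⟨U, hU, hUK⟩ := hgood K hK
    have := hρ.finite U hU.isOpen hU.isCompact
    refine finite_of_lift (fixedVectors ρ U) _ fun v hv => ?_
    refine lift1 hbasis hσc hσ hS hρ.smooth hU v v.2 fun h hhU hh => ?_
    have h1 := hv ⟨h, hh⟩ (hUK ⟨h, hh⟩ hhU)
    rw [tate1, subquotientRep_mk, Submodule.Quotient.eq] at h1
    exact h1

end adm

/-! ### Closed subgroups of `GL_n` over a local field -/

section general_linear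

set_option linter.unusedSectionVars false

variable {F : Type*} [Field F] [ValuativeRel F] [TopologicalSpace F] [IsNonarchimedeanLocalField F]

theorem t2_field : T2Space F := by
  refine IsTopologicalAddGroup.t2Space_of_zero_sep fun x hx => ?_
  refine ⟨{y | valuation F y < valuation F x},
    (IsValuativeTopology.hasBasis_nhds_zero' F).mem_of_mem ((map_ne_zero _).2 hx), ?_⟩
  simp

/-- The ball `{x : |x| < γ}` as an additive subgroup. -/
def ball (γ : ValueGroupWithZero F) (hγ : γ ≠ 0) : AddSubgroup F where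
  carrier := {x | valuation F x < γ}
  add_mem' := fun {a b} (ha : valuation F a < γ) (hb : valuation F b < γ) => by
    show valuation F (a + b) < γ
    exact lt_of_le_of_lt (Valuation.map_add _ a b) (max_lt ha hb)
  zero_mem' := by
    show valuation F 0 < γ
    rw [map_zero]; exact zero_lt_iff.2 hγ
  neg_mem' := fun {a} (ha : valuation F a < γ) => by
    show valuation F (-a) < γ
    rw [Valuation.map_neg]; exact ha

theorem coe_ball (γ : ValueGroupWithZero F) (hγ : γ ≠ 0) :
    (ball γ hγ : Set F) = {x : F | valuation F x < γ} := rfl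

theorem ball_isOpen (γ : ValueGroupWithZero F) (hγ : γ ≠ 0) : IsOpen {x : F | valuation F x < γ} := by
  rw [← coe_ball γ hγ]
  refine (ball γ hγ).isOpen_of_mem_nhds (g := 0) ?_
  rw [coe_ball γ hγ]
  exact (IsValuativeTopology.hasBasis_nhds_zero' F).mem_of_mem hγ

theorem ball_isClosed (γ : ValueGroupWithZero F) (hγ : γ ≠ 0) : IsClosed {x : F | valuation F x < γ} := by
  rw [← coe_ball γ hγ]
  refine (ball γ hγ).isClosed_of_isOpen ?_
  rw [coe_ball γ hγ]
  exact ball_isOpen γ hγ

variable {n : ℕ}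

/-- entries of absolute value `< γ` -/
def Small (γ : ValueGroupWithZero F) (A : Matrix (Fin n) (Fin n) F) : Prop := ∀ i j, valuation F (A i j) < γ

/-- entries of absolute value `≤ γ` -/
def Bdd (γ : ValueGroupWithZero F) (A : Matrix (Fin n) (Fin n) F) : Prop := ∀ i j, valuation F (A i j) ≤ γ

theorem Small.add {γ : ValueGroupWithZero F} {A B : Matrix (Fin n) (Fin n) F} (hA : Small γ A) (hB : Small γ B) :
    Small γ (A + B) := fun i j => lt_of_le_of_lt (Valuation.map_add _ _ _) (max_lt (hA i j) (hB i j))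

theorem Bdd.add {γ : ValueGroupWithZero F} {A B : Matrix (Fin n) (Fin n) F} (hA : Bdd γ A) (hB : Bdd γ B) :
    Bdd γ (A + B) := fun i j => (Valuation.map_add _ _ _).trans (max_le (hA i j) (hB i j))

theorem Bdd.mul {γ δ : ValueGroupWithZero F} {A B : Matrix (Fin n) (Fin n) F} (hA : Bdd γ A) (hB : Bdd δ B) :
    Bdd (γ * δ) (A * B) := fun i j => by
  rw [Matrix.mul_apply]
  refine Valuation.map_sum_le _ fun k _ => ?_
  rw [map_mul]
  exact mul_le_mul' (hA i k) (hB k j)

theorem Small.mul_bdd {γ : ValueGroupWithZero F} (hγ : γ ≠ 0) {A B : Matrix (Fin n) (Fin n) F} (hA : Small γ A)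
    (hB : Bdd 1 B) : Small γ (A * B) := fun i j => by
  rw [Matrix.mul_apply]
  refine Valuation.map_sum_lt _ hγ fun k _ => ?_
  rw [map_mul]
  exact lt_of_le_of_lt (mul_le_mul' le_rfl (hB k j)) (by rw [mul_one]; exact hA i k)

theorem Bdd.mul_small {γ : ValueGroupWithZero F} (hγ : γ ≠ 0) {A B : Matrix (Fin n) (Fin n) F} (hA : Bdd 1 A)
    (hB : Small γ B) : Small γ (A * B) := fun i j => by
  rw [Matrix.mul_apply]
  refine Valuation.map_sum_lt _ hγ fun k _ => ?_
  rw [map_mul]
  exact lt_of_le_of_lt (mul_le_mul' (hA i k) le_rfl) (by rw [one_mul]; exact hB k j)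

theorem bdd_one : Bdd (1 : ValueGroupWithZero F) (1 : Matrix (Fin n) (Fin n) F) := fun i j => by
  rw [Matrix.one_apply]
  split_ifs
  · simp
  · simp

theorem Bdd.of_small_sub {γ : ValueGroupWithZero F} (hγ : γ ≤ 1) {A : Matrix (Fin n) (Fin n) F}
    (hA : Small γ (A - 1)) : Bdd 1 A := by
  have h1 : Bdd (1 : ValueGroupWithZero F) (A - 1) := fun i j => (hA i j).le.trans hγ
  have := h1.add bdd_one
  simpa using this

/-- The congruence subgroup: `g ≡ 1` and `g⁻¹ ≡ 1` modulo the ball of radius `γ`. -/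
def cong (n : ℕ) (γ : ValueGroupWithZero F) (hγ : γ ≠ 0) (hγ1 : γ ≤ 1) : Subgroup (GL (Fin n) F) where
  carrier := {g | Small γ ((g : Matrix (Fin n) (Fin n) F) - 1) ∧ Small γ ((g⁻¹ : GL (Fin n) F).1 - 1)}
  mul_mem' := fun {a b} ha hb => by
    have key : ∀ A B : Matrix (Fin n) (Fin n) F, Small γ (A - 1) → Small γ (B - 1) → Small γ (A * B - 1) := by
      intro A B hA hB
      have h1 : A * B - 1 = (A - 1) * B + (B - 1) := by rw [sub_mul, one_mul]; abel
      rw [h1]
      exact (hA.mul_bdd hγ (Bdd.of_small_sub hγ1 hB)).add hB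
    refine ⟨?_, ?_⟩
    · rw [Units.val_mul]; exact key _ _ ha.1 hb.1
    · rw [mul_inv_rev, Units.val_mul]; exact key _ _ hb.2 ha.2
  one_mem' := by
    refine ⟨?_, ?_⟩
    · intro i j; simpa using zero_lt_iff.2 hγ
    · intro i j; simpa using zero_lt_iff.2 hγ
  inv_mem' := fun {a} ha => ⟨ha.2, by rw [inv_inv]; exact ha.1⟩

theorem mem_cong {γ : ValueGroupWithZero F} {hγ : γ ≠ 0} {hγ1 : γ ≤ 1} {g : GL (Fin n) F} :
    g ∈ cong n γ hγ hγ1 ↔
      Small γ ((g : Matrix (Fin n) (Fin n) F) - 1) ∧ Small γ ((g⁻¹ : GL (Fin n) F).1 - 1) := Iff.rfl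

theorem small_isOpen (γ : ValueGroupWithZero F) (hγ : γ ≠ 0) :
    IsOpen {A : Matrix (Fin n) (Fin n) F | Small γ (A - 1)} := by
  have h1 : {A : Matrix (Fin n) (Fin n) F | Small γ (A - 1)} =
      ⋂ i, ⋂ j, (fun A : Matrix (Fin n) (Fin n) F => (A - 1) i j) ⁻¹' {x : F | valuation F x < γ} := by
    ext A; simp [Small]
  rw [h1]
  refine isOpen_iInter_of_finite fun i => isOpen_iInter_of_finite fun j => (ball_isOpen γ hγ).preimage ?_
  exact (continuous_id.sub continuous_const).matrix_elem i j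

theorem small_isClosed (γ : ValueGroupWithZero F) (hγ : γ ≠ 0) :
    IsClosed {A : Matrix (Fin n) (Fin n) F | Small γ (A - 1)} := by
  have h1 : {A : Matrix (Fin n) (Fin n) F | Small γ (A - 1)} =
      ⋂ i, ⋂ j, (fun A : Matrix (Fin n) (Fin n) F => (A - 1) i j) ⁻¹' {x : F | valuation F x < γ} := by
    ext A; simp [Small]
  rw [h1]
  refine isClosed_iInter fun i => isClosed_iInter fun j => (ball_isClosed γ hγ).preimage ?_
  exact (continuous_id.sub continuous_const).matrix_elem i j

theorem bdd_isCompact : IsCompact {A : Matrix (Fin n) (Fin n) F | Bdd 1 A} := by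
  have h1 : {A : Matrix (Fin n) (Fin n) F | Bdd 1 A} =
      Set.univ.pi fun _ : Fin n => Set.univ.pi fun _ : Fin n => {x : F | valuation F x ≤ 1} := by
    ext A
    constructor
    · intro h i _ j _; exact h i j
    · intro h i j; exact h i (Set.mem_univ _) j (Set.mem_univ _)
  rw [h1]
  exact isCompact_univ_pi fun _ => isCompact_univ_pi fun _ => IsNonarchimedeanLocalField.isCompact_closedBall F 1

theorem cong_isOpen (γ : ValueGroupWithZero F) (hγ : γ ≠ 0) (hγ1 : γ ≤ 1) :
    IsOpen (cong n γ hγ hγ1 : Set (GL (Fin n) F)) := by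
  have h1 : (cong n γ hγ hγ1 : Set (GL (Fin n) F)) =
      (fun g : GL (Fin n) F => g.1) ⁻¹' {A | Small γ (A - 1)} ∩
        (fun g : GL (Fin n) F => (g⁻¹ : GL (Fin n) F).1) ⁻¹' {A | Small γ (A - 1)} := rfl
  rw [h1]
  exact ((small_isOpen γ hγ).preimage Units.continuous_val).inter
    ((small_isOpen γ hγ).preimage (Units.continuous_val.comp continuous_inv))

theorem cong_isCompact (γ : ValueGroupWithZero F) (hγ : γ ≠ 0) (hγ1 : γ ≤ 1) :
    IsCompact (cong n γ hγ hγ1 : Set (GL (Fin n) F)) := by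
  have := t2_field (F := F)
  let C : Set (Matrix (Fin n) (Fin n) F) := {A | Small γ (A - 1)}
  have hC : IsCompact C := bdd_isCompact.of_isClosed_subset (small_isClosed γ hγ)
    fun A hA => Bdd.of_small_sub hγ1 hA
  have h1 : (cong n γ hγ hγ1 : Set (GL (Fin n) F)) =
      Units.embedProduct (Matrix (Fin n) (Fin n) F) ⁻¹' (C ×ˢ (MulOpposite.unop ⁻¹' C)) := by
    ext g
    simp [mem_cong, C, Units.embedProduct]
  rw [h1]
  refine Units.isClosedEmbedding_embedProduct.isCompact_preimage (hC.prod ?_)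
  have h2 : (MulOpposite.unop ⁻¹' C : Set (Matrix (Fin n) (Fin n) F)ᵐᵒᵖ) = MulOpposite.op '' C := by
    ext x
    constructor
    · intro hx; exact ⟨x.unop, hx, rfl⟩
    · rintro ⟨y, hy, rfl⟩; exact hy
  rw [h2]
  exact hC.image MulOpposite.continuous_op

theorem exists_small_subset (A : Set (Matrix (Fin n) (Fin n) F)) (hA : A ∈ nhds (1 : Matrix (Fin n) (Fin n) F)) :
    ∃ γ : ValueGroupWithZero F, γ ≠ 0 ∧ γ ≤ 1 ∧ ∀ B, Small γ (B - 1) → B ∈ A := by
  classical
  -- neighbourhoods of `0`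
  have h0 : (fun B : Matrix (Fin n) (Fin n) F => B + 1) ⁻¹' A ∈ nhds (0 : Matrix (Fin n) (Fin n) F) := by
    apply ((continuous_id.add continuous_const :
      Continuous fun B : Matrix (Fin n) (Fin n) F => B + 1)).continuousAt.preimage_mem_nhds
    simpa using hA
  let T : Set (Fin n → Fin n → F) := (fun B : Matrix (Fin n) (Fin n) F => B + 1) ⁻¹' A
  have h0' : T ∈ nhds (0 : Fin n → Fin n → F) := h0
  rw [nhds_pi, Filter.mem_pi'] at h0'
  obtain ⟨I, t, ht, htA⟩ := h0'
  have h2 : ∀ i, ∃ γ : ValueGroupWithZero F, γ ≠ 0 ∧ ∀ v : Fin n → F, (∀ j, valuation F (v j) < γ) → v ∈ t i := by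
    intro i
    have h3 : t i ∈ nhds (0 : Fin n → F) := ht i
    rw [nhds_pi, Filter.mem_pi'] at h3
    obtain ⟨J, s, hs, hst⟩ := h3
    have h4 : ∀ j, ∃ γ : ValueGroupWithZero F, γ ≠ 0 ∧ ∀ x : F, valuation F x < γ → x ∈ s j := by
      intro j
      obtain ⟨r, hr, hrs⟩ := (IsValuativeTopology.hasBasis_nhds_zero' F).mem_iff.1 (hs j)
      exact ⟨r, hr, fun x hx => hrs hx⟩
    choose g hg hg2 using h4
    rcases isEmpty_or_nonempty (Fin n) with hn | hn
    · exact ⟨1, one_ne_zero, fun v _ => hst fun j _ => (hn.false j).elim⟩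
    · refine ⟨Finset.univ.inf' Finset.univ_nonempty g, ?_, fun v hv => hst fun j _ => hg2 j _ ?_⟩
      · obtain ⟨j, -, hj⟩ := Finset.exists_mem_eq_inf' Finset.univ_nonempty g
        rw [hj]; exact hg j
      · exact lt_of_lt_of_le (hv j) (Finset.inf'_le _ (Finset.mem_univ j))
  choose g hg hg2 using h2
  rcases isEmpty_or_nonempty (Fin n) with hn | hn
  · refine ⟨1, one_ne_zero, le_rfl, fun B _ => ?_⟩
    have : B = 1 := by ext i; exact (hn.false i).elim
    rw [this]; exact mem_of_mem_nhds hA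
  · refine ⟨min 1 (Finset.univ.inf' Finset.univ_nonempty g), ?_, min_le_left _ _, fun B hB => ?_⟩
    · obtain ⟨j, -, hj⟩ := Finset.exists_mem_eq_inf' Finset.univ_nonempty g
      rw [hj]
      rcases min_choice (1 : ValueGroupWithZero F) (g j) with h | h
      · rw [h]; exact one_ne_zero
      · rw [h]; exact hg j
    · let C : Matrix (Fin n) (Fin n) F := B - 1
      have h5 : (C : Fin n → Fin n → F) ∈ T := by
        apply htA
        intro i _
        refine hg2 i _ fun j => lt_of_lt_of_le (hB i j) ((min_le_right _ _).trans ?_)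
        exact Finset.inf'_le _ (Finset.mem_univ i)
      have h6 : (B - 1) + 1 ∈ A := h5
      simpa using h6

theorem exists_cong_subset (O : Set (GL (Fin n) F)) (hO : O ∈ nhds (1 : GL (Fin n) F)) :
    ∃ (γ : ValueGroupWithZero F) (hγ : γ ≠ 0) (hγ1 : γ ≤ 1), (cong n γ hγ hγ1 : Set (GL (Fin n) F)) ⊆ O := by
  rw [Units.isEmbedding_embedProduct.nhds_eq_comap, Filter.mem_comap] at hO
  obtain ⟨T, hT, hTO⟩ := hO
  rw [map_one, show (1 : Matrix (Fin n) (Fin n) F × (Matrix (Fin n) (Fin n) F)ᵐᵒᵖ) = (1, 1) from rfl,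
    nhds_prod_eq, Filter.mem_prod_iff] at hT
  obtain ⟨A, hA, B, hB, hAB⟩ := hT
  obtain ⟨γ, hγ, hγ1, h1⟩ := exists_small_subset A hA
  have hB' : MulOpposite.op ⁻¹' B ∈ nhds (1 : Matrix (Fin n) (Fin n) F) :=
    MulOpposite.continuous_op.continuousAt.preimage_mem_nhds hB
  obtain ⟨δ, hδ, hδ1, h2⟩ := exists_small_subset _ hB'
  have hmin : min γ δ ≠ 0 := by
    rcases min_choice γ δ with h | h
    · rw [h]; exact hγ
    · rw [h]; exact hδ
  refine ⟨min γ δ, hmin, (min_le_left _ _).trans hγ1, fun g hg => hTO (hAB ⟨h1 _ ?_, h2 _ ?_⟩)⟩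
  · intro i j; exact lt_of_lt_of_le (hg.1 i j) (min_le_left _ _)
  · intro i j; exact lt_of_lt_of_le (hg.2 i j) (min_le_right _ _)

/-- `(1 + A)^N ≡ 1 + N A` modulo the ball of radius `|A|²`. -/
theorem pow_sub {a : ValueGroupWithZero F} (ha : a ≤ 1) {A : Matrix (Fin n) (Fin n) F} (hA : Bdd a A) (N : ℕ) :
    Bdd (a * a) ((1 + A) ^ N - 1 - (N : F) • A) := by
  have hmono : ∀ {x y : ValueGroupWithZero F} {B : Matrix (Fin n) (Fin n) F}, x ≤ y → Bdd x B → Bdd y B :=
    fun h hB i j => (hB i j).trans h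
  induction N with
  | zero => intro i j; simp
  | succ N ih =>
    have h1 : (1 + A) ^ (N + 1) - 1 - ((N + 1 : ℕ) : F) • A =
        ((1 + A) ^ N - 1 - (N : F) • A) + ((1 + A) ^ N - 1 - (N : F) • A) * A + ((N : F) • A) * A := by
      rw [pow_succ]
      push_cast
      rw [add_smul, one_smul]
      noncomm_ring
    rw [h1]
    refine (ih.add ?_).add ?_
    · refine hmono ?_ (ih.mul hA)
      calc a * a * a ≤ a * a * 1 := mul_le_mul' le_rfl ha
        _ = a * a := mul_one _
    · have h2 : Bdd a ((N : F) • A) := fun i j => by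
        rw [Matrix.smul_apply, smul_eq_mul, map_mul]
        calc valuation F (N : F) * valuation F (A i j) ≤ 1 * a := by
              refine mul_le_mul' ?_ (hA i j)
              exact natCast_mem (valuation F).integer N
          _ = a := one_mul a
      exact h2.mul hA

theorem pow_small {ℓ : ℕ} {d : ValueGroupWithZero F} (hd : d ≤ 1) (hℓ : valuation F (ℓ : F) ≤ d)
    {A : Matrix (Fin n) (Fin n) F} (hA : Bdd d (A - 1)) (m : ℕ) : Bdd (d ^ (m + 1)) (A ^ (ℓ ^ m) - 1) := by
  induction m with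
  | zero => simpa using hA
  | succ m ih =>
    have hdm : d ^ (m + 1) ≤ 1 := pow_le_one' hd _
    have h1 := pow_sub hdm ih ℓ
    rw [add_sub_cancel, ← pow_mul, ← pow_succ] at h1
    have h2 : A ^ ℓ ^ (m + 1) - 1 =
        (A ^ ℓ ^ (m + 1) - 1 - (ℓ : F) • (A ^ ℓ ^ m - 1)) + (ℓ : F) • (A ^ ℓ ^ m - 1) := by abel
    rw [h2]
    refine Bdd.add ?_ ?_
    · intro i j
      refine (h1 i j).trans ?_
      rw [pow_succ d (m + 1)]
      refine mul_le_mul' le_rfl ?_
      calc d ^ (m + 1) = d ^ m * d := pow_succ d m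
        _ ≤ 1 * d := mul_le_mul' (pow_le_one' hd _) le_rfl
        _ = d := one_mul d
    · intro i j
      rw [Matrix.smul_apply, smul_eq_mul, map_mul, pow_succ' d (m + 1)]
      exact mul_le_mul' hℓ (ih i j)

theorem exists_pow_mem {ℓ : ℕ} (hℓ : valuation F (ℓ : F) < 1) (γ : ValueGroupWithZero F) (hγ : γ ≠ 0) (hγ1 : γ ≤ 1)
    (g : GL (Fin n) F) (hg : g ∈ cong n 1 one_ne_zero le_rfl) : ∃ m : ℕ, g ^ (ℓ ^ m) ∈ cong n γ hγ hγ1 := by
  classical
  -- a bound for all entries
  obtain ⟨d, hd, hdℓ, h1, h2⟩ : ∃ d : ValueGroupWithZero F, d < 1 ∧ valuation F (ℓ : F) ≤ d ∧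
      Bdd d ((g : Matrix (Fin n) (Fin n) F) - 1) ∧ Bdd d ((g⁻¹ : GL (Fin n) F).1 - 1) := by
    let s : Finset (ValueGroupWithZero F) := insert (valuation F (ℓ : F))
      ((Finset.univ.image fun x : Fin n × Fin n => valuation F (((g : Matrix (Fin n) (Fin n) F) - 1) x.1 x.2)) ∪
        (Finset.univ.image fun x : Fin n × Fin n => valuation F (((g⁻¹ : GL (Fin n) F).1 - 1) x.1 x.2)))
    have hs : s.Nonempty := Finset.insert_nonempty _ _
    refine ⟨s.max' hs, ?_, s.le_max' _ (Finset.mem_insert_self _ _), ?_, ?_⟩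
    · rw [Finset.max'_lt_iff]
      intro y hy
      simp only [s, Finset.mem_insert, Finset.mem_union, Finset.mem_image, Finset.mem_univ, true_and] at hy
      rcases hy with rfl | ⟨x, rfl⟩ | ⟨x, rfl⟩
      · exact hℓ
      · exact hg.1 x.1 x.2
      · exact hg.2 x.1 x.2
    · intro i j
      refine s.le_max' _ (Finset.mem_insert_of_mem (Finset.mem_union_left _ ?_))
      exact Finset.mem_image.2 ⟨(i, j), Finset.mem_univ _, rfl⟩
    · intro i j
      refine s.le_max' _ (Finset.mem_insert_of_mem (Finset.mem_union_right _ ?_))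
      exact Finset.mem_image.2 ⟨(i, j), Finset.mem_univ _, rfl⟩
  have : MulArchimedean (ValueGroupWithZero F) := inferInstance
  obtain ⟨m, hm⟩ := exists_pow_lt₀ hd (Units.mk0 γ hγ)
  rw [Units.val_mk0] at hm
  refine ⟨m, ?_, ?_⟩
  · intro i j
    rw [Units.val_pow_eq_pow_val]
    refine lt_of_le_of_lt (pow_small hd.le hdℓ h1 m i j) (lt_of_le_of_lt ?_ hm)
    rw [pow_succ]
    exact (mul_le_mul' le_rfl hd.le).trans (mul_one _).le
  · intro i j
    rw [← inv_pow, Units.val_pow_eq_pow_val]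
    refine lt_of_le_of_lt (pow_small hd.le hdℓ h2 m i j) (lt_of_le_of_lt ?_ hm)
    rw [pow_succ]
    exact (mul_le_mul' le_rfl hd.le).trans (mul_one _).le

theorem residue_char {p : ℕ} (hres : (p : 𝓀[F]) ≠ 0) :
    ∃ ℓ : ℕ, ℓ.Prime ∧ ℓ ≠ p ∧ valuation F (ℓ : F) < 1 := by
  obtain ⟨ℓ, hℓ⟩ := CharP.exists 𝓀[F]
  have hprime : ℓ.Prime := CharP.char_is_prime 𝓀[F] ℓ
  refine ⟨ℓ, hprime, ?_, ?_⟩
  · rintro rfl
    exact hres (CharP.cast_eq_zero _ _)
  · have h1 : IsLocalRing.residue 𝒪[F] (ℓ : 𝒪[F]) = 0 := by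
      rw [map_natCast]; exact CharP.cast_eq_zero _ _
    rw [IsLocalRing.residue_eq_zero_iff, IsLocalRing.mem_maximalIdeal, mem_nonunits_iff] at h1
    have h2 := (Valuation.integer.integers (valuation F)).isUnit_iff_valuation_eq_one (x := (ℓ : 𝒪[F]))
    have h3 : valuation F (algebraMap 𝒪[F] F (ℓ : 𝒪[F])) = valuation F (ℓ : F) := by
      rw [map_natCast]
    refine lt_of_le_of_ne (natCast_mem (valuation F).integer ℓ) fun h4 => h1 (h2.2 ?_)
    rw [h3]; exact h4

/-- `cong γ` is normalised by the elements of `GL_n` congruent to `1`. -/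
theorem conj_mem_cong {γ : ValueGroupWithZero F} {hγ : γ ≠ 0} {hγ1 : γ ≤ 1} {g x : GL (Fin n) F}
    (hg : g ∈ cong n 1 one_ne_zero le_rfl) (hx : x ∈ cong n γ hγ hγ1) : g * x * g⁻¹ ∈ cong n γ hγ hγ1 := by
  have key : ∀ y : GL (Fin n) F, Small γ ((y : Matrix (Fin n) (Fin n) F) - 1) →
      Small γ ((g * y * g⁻¹ : GL (Fin n) F).1 - 1) := by
    intro y hy
    have h1 : (g * y * g⁻¹ : GL (Fin n) F).1 - 1 = g.1 * (y.1 - 1) * (g⁻¹ : GL (Fin n) F).1 := by
      rw [mul_sub, sub_mul, mul_one, Units.mul_inv, Units.val_mul, Units.val_mul]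
    rw [h1]
    exact (Bdd.mul_small hγ (Bdd.of_small_sub le_rfl hg.1) hy).mul_bdd hγ (Bdd.of_small_sub le_rfl hg.2)
  refine ⟨key x hx.1, ?_⟩
  have h2 : (g * x * g⁻¹)⁻¹ = g * x⁻¹ * g⁻¹ := by group
  rw [h2]
  exact key x⁻¹ hx.2

theorem index_prime {p : ℕ} (hp : p.Prime) (hres : (p : 𝓀[F]) ≠ 0) (G : Subgroup (GL (Fin n) F))
    (hG : IsClosed (G : Set (GL (Fin n) F))) :
    IsOpen (((cong n (1 : ValueGroupWithZero F) one_ne_zero le_rfl).subgroupOf G : Subgroup G) : Set G) ∧
    IsCompact (((cong n (1 : ValueGroupWithZero F) one_ne_zero le_rfl).subgroupOf G : Subgroup G) : Set G) ∧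
    ∀ M : Subgroup G, IsOpen (M : Set G) → M ≤ (cong n (1 : ValueGroupWithZero F) one_ne_zero le_rfl).subgroupOf G →
      ¬ p ∣ M.relIndex ((cong n (1 : ValueGroupWithZero F) one_ne_zero le_rfl).subgroupOf G) := by
  set P : Subgroup G := (cong n (1 : ValueGroupWithZero F) one_ne_zero le_rfl).subgroupOf G with hPdef
  have hPo : IsOpen (P : Set G) := (cong_isOpen (n := n) (1 : ValueGroupWithZero F) one_ne_zero le_rfl).preimage
    continuous_subtype_val
  have hPc : IsCompact (P : Set G) := hG.isClosedEmbedding_subtypeVal.isCompact_preimage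
    (cong_isCompact (n := n) (1 : ValueGroupWithZero F) one_ne_zero le_rfl)
  refine ⟨hPo, hPc, fun M hM hMP hdvd => ?_⟩
  obtain ⟨ℓ, hℓ, hℓp, hvℓ⟩ := residue_char hres
  have : Fact ℓ.Prime := ⟨hℓ⟩
  -- a congruence subgroup contained in `M`
  have h1 : (M : Set G) ∈ nhds (1 : G) := hM.mem_nhds M.one_mem
  rw [nhds_subtype_eq_comap, Filter.mem_comap] at h1
  obtain ⟨O, hO, hOM⟩ := h1
  obtain ⟨γ, hγ, hγ1, hγO⟩ := exists_cong_subset O hO
  let N : Subgroup G := (cong n γ hγ hγ1).subgroupOf G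
  have hNM : N ≤ M := fun x hx => hOM (hγO hx)
  have hNo : IsOpen (N : Set G) := (cong_isOpen (n := n) γ hγ hγ1).preimage continuous_subtype_val
  have hnormal : (N.subgroupOf P).Normal := ⟨fun x hx g => by
    rw [Subgroup.mem_subgroupOf] at hx ⊢
    exact conj_mem_cong (γ := γ) (hγ := hγ) (hγ1 := hγ1) g.2 hx⟩
  have hcP : CompactSpace P := isCompact_iff_compactSpace.1 hPc
  have hfin : Finite (P ⧸ N.subgroupOf P) := Subgroup.quotient_finite_of_isOpen _ (hNo.preimage continuous_subtype_val)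
  have hpg : IsPGroup ℓ (P ⧸ N.subgroupOf P) := by
    intro x
    induction x using QuotientGroup.induction_on with
    | H x =>
      obtain ⟨m, hm⟩ := exists_pow_mem hvℓ γ hγ hγ1 ((x : G) : GL (Fin n) F) x.2
      refine ⟨m, ?_⟩
      rw [← QuotientGroup.mk_pow, QuotientGroup.eq_one_iff, Subgroup.mem_subgroupOf]
      exact hm
  obtain ⟨m, hm⟩ := IsPGroup.iff_card.1 hpg
  have h2 : N.relIndex P = ℓ ^ m := hm
  have h3 : M.relIndex P ∣ N.relIndex P := by
    rw [← Subgroup.relIndex_mul_relIndex N M P hNM hMP]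
    exact dvd_mul_left _ _
  have h4 : p ∣ ℓ ^ m := h2 ▸ hdvd.trans h3
  exact hℓp ((Nat.prime_dvd_prime_iff_eq hp hℓ).1 (hp.dvd_of_dvd_pow h4)).symm

theorem basis_subgroup (G : Subgroup (GL (Fin n) F)) (O : Set G) (hO : IsOpen O) (h1 : (1 : G) ∈ O) :
    ∃ U : Subgroup G, IsOpen (U : Set G) ∧ (U : Set G) ⊆ O := by
  have h2 : O ∈ nhds (1 : G) := hO.mem_nhds h1
  rw [nhds_subtype_eq_comap, Filter.mem_comap] at h2
  obtain ⟨T, hT, hTO⟩ := h2
  obtain ⟨γ, hγ, hγ1, hγT⟩ := exists_cong_subset T hT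
  exact ⟨(cong n γ hγ hγ1).subgroupOf G, (cong_isOpen (n := n) γ hγ hγ1).preimage continuous_subtype_val,
    fun x hx => hTO (hγT hx)⟩

theorem t2_units : T2Space (GL (Fin n) F) := by
  have := t2_field (F := F)
  exact inferInstance

end general_linear

/-- **Tate cohomology of admissible representations is admissible.** -/
theorem result {p : ℕ} [Fact p.Prime] {F : Type*} [Field F] [ValuativeRel F] [TopologicalSpace F]
    [IsNonarchimedeanLocalField F] (hF : (p : 𝓀[F]) ≠ 0) {n : ℕ} (G : Subgroup (GL (Fin n) F))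
    (hG : IsClosed (G : Set (GL (Fin n) F))) (σ : G ≃* G) (hσc : Continuous σ) (hσ : ∀ g, (⇑σ)^[p] g = g)
    {k V : Type*} [Field k] [CharP k p] [AddCommGroup V] [Module k V] (ρ : Representation k G V)
    (hρ : IsAdmissible ρ) (S : Module.End k V) (hS : IsExtension σ p ρ S) :
    IsAdmissible (tate0 hS) ∧ IsAdmissible (tate1 hS) := by
  have := t2_units (F := F) (n := n)
  obtain ⟨hPo, hPc, hPi⟩ := index_prime (n := n) (Fact.out : p.Prime) hF G hG
  exact main (fun O hO h1 => basis_subgroup G O hO h1) _ hPo hPc hPi hσc hσ hρ hS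

end Pool.Agent.Results.MP_60b77b_nt.TateAdmissible
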